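import Pool.Agent.helper81.CX.Spec2

/-!
Row CRX of project cx (MP_447e26_gt): linear functions.
-/

set_option autoImplicit false

open MeasureTheory Set Filter Topology
open scoped ENNReal
open Pool.Agent.helper81.CW

noncomputable section

namespace Pool.Agent.CX

/-- the norm is square integrable -/
theorem CRX_sq (hG1 : G1_stmt) (hG4 : G4_stmt) (n : ℕ) : Integrable (fun x : E n => ‖x‖ ^ 2) (gm n) := by
  have := (hG1 n).1
  rcases Nat.eq_zero_or_pos n with h0 | hn
  · subst h0
    have : (fun x : E 0 => ‖x‖ ^ 2) = fun _ => (0 : ℝ) := by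
      funext x
      have hx : x = 0 := Subsingleton.elim _ _
      rw [hx]
      simp
    rw [this]
    exact integrable_const 0
  · by_contra hcon
    have h := hG4 n (fun _ => 1) 1 measurable_const (fun x => by simp) (fun x t ht => rfl)
    simp only [mul_one] at h
    rw [integral_undef hcon] at h
    simp only [integral_const, smul_eq_mul, mul_one] at h
    have h1 : (gm n).real Set.univ = 1 := by simp
    rw [h1] at h
    have : (0 : ℝ) < n := by exact_mod_cast hn
    linarith

theorem CRX_id (hG1 : G1_stmt) (hG4 : G4_stmt) (n : ℕ) : Integrable (fun x : E n => x) (gm n) := by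
  have := (hG1 n).1
  have h2 : Integrable (fun x : E n => 1 + ‖x‖ ^ 2) (gm n) := (integrable_const 1).add (CRX_sq hG1 hG4 n)
  refine h2.mono' measurable_id.aestronglyMeasurable ?_
  refine Eventually.of_forall fun x => ?_
  nlinarith [sq_nonneg (‖x‖ - 1), norm_nonneg x]

theorem CRX_zero (hG1 : G1_stmt) (n : ℕ) : ∫ x : E n, x ∂(gm n) = 0 := by
  have := (hG1 n).1
  have hm : MeasurePreserving (fun x : E n => -x) (gm n) (gm n) := ⟨measurable_neg, (hG1 n).2⟩
  have h := hm.integral_comp (MeasurableEquiv.neg (E n)).measurableEmbedding (fun x : E n => x)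
  rw [integral_neg] at h
  have h2 : (2 : ℝ) • ∫ x : E n, x ∂(gm n) = 0 := by
    rw [two_smul]
    nth_rewrite 1 [← h]
    simp
  exact (smul_eq_zero.mp h2).resolve_left (by norm_num)

theorem CRX_inn (hG1 : G1_stmt) (hG4 : G4_stmt) (n : ℕ) (f : E n → E n) (hf : BM f) :
    Integrable (fun x : E n => inner ℝ (f x) x) (gm n) := by
  have := (hG1 n).1
  have h2 : Integrable (fun x : E n => 2 * ‖x‖) (gm n) := ((CRX_id hG1 hG4 n).norm).const_mul 2
  refine h2.mono' (hf.1.inner measurable_id).aestronglyMeasurable ?_
  refine Eventually.of_forall fun x => ?_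
  refine (norm_inner_le_norm _ _).trans ?_
  exact mul_le_mul_of_nonneg_right (hf.2 x) (norm_nonneg _)

theorem CRX (hG1 : G1_stmt) (hG4 : G4_stmt) (hROM : ROM_stmt) : CRX_stmt := by
  intro n f t hf ht
  have := (hG1 n).1
  have hid := CRX_id hG1 hG4 n
  have hz := CRX_zero hG1 n
  have hin := CRX_inn hG1 hG4 n f hf
  have ht2 : t ^ 2 ≤ 1 := by
    rw [← sq_abs]
    nlinarith [abs_nonneg t]
  set s : ℝ := Real.sqrt (1 - t ^ 2) with hs
  have hs2 : s ^ 2 = 1 - t ^ 2 := Real.sq_sqrt (by linarith)
  constructor
  · rw [← integral_const_mul]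
    refine integral_congr_ae (Eventually.of_forall fun x => ?_)
    have h1 : (fun y : E n => inner ℝ (f x) (mix t x y)) = fun y => t * inner ℝ (f x) x + s * inner ℝ (f x) y := by
      funext y
      rw [mix, inner_add_right, inner_smul_right, inner_smul_right]
    simp only [h1]
    have hy : Integrable (fun y : E n => inner ℝ (f x) y) (gm n) := hid.const_inner (f x)
    rw [integral_add (integrable_const _) (hy.const_mul s), integral_const_mul s, integral_inner hid (f x), hz]
    simp
  · -- integrability on the product
    have hmixm : Measurable (fun p : E n × E n => mix t p.1 p.2) := by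
      unfold mix
      fun_prop
    have hfst : Integrable (fun p : E n × E n => p.1) ((gm n).prod (gm n)) := hid.comp_fst (gm n)
    have hF : Integrable (fun p : E n × E n => inner ℝ (f (mix t p.1 p.2)) p.1) ((gm n).prod (gm n)) := by
      have h2 : Integrable (fun p : E n × E n => 2 * ‖p.1‖) ((gm n).prod (gm n)) := hfst.norm.const_mul 2
      refine h2.mono' ((hf.1.comp hmixm).inner measurable_fst).aestronglyMeasurable ?_
      refine Eventually.of_forall fun p => ?_
      refine (norm_inner_le_norm _ _).trans ?_
      exact mul_le_mul_of_nonneg_right (hf.2 _) (norm_nonneg _)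
    have hstep1 : (∫ x, inner ℝ (PP f t x) x ∂(gm n)) = ∫ p : E n × E n, inner ℝ (f (mix t p.1 p.2)) p.1 ∂((gm n).prod (gm n)) := by
      rw [integral_prod _ hF]
      refine integral_congr_ae (Eventually.of_forall fun x => ?_)
      have hfx : Integrable (fun y : E n => f (mix t x y)) (gm n) := by
        refine (integrable_const (2 : ℝ)).mono' ?_ (Eventually.of_forall fun y => hf.2 _)
        exact (hf.1.comp (hmixm.comp measurable_prodMk_left)).aestronglyMeasurable
      show inner ℝ (PP f t x) x = ∫ y, inner ℝ (f (mix t x y)) x ∂(gm n)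
      rw [real_inner_comm, PP, ← integral_inner hfx x]
      refine integral_congr_ae (Eventually.of_forall fun y => ?_)
      exact real_inner_comm _ _
    have hrot := (hROM n t (-s) (by nlinarith)).1
    have hstep2 : (∫ p : E n × E n, inner ℝ (f (mix t p.1 p.2)) p.1 ∂((gm n).prod (gm n))) =
        ∫ p : E n × E n, inner ℝ (f p.1) (t • p.1 + (-s) • p.2) ∂((gm n).prod (gm n)) := by
      have h := integral_map (μ := (gm n).prod (gm n)) hrot.measurable.aemeasurable
        (f := fun p : E n × E n => inner ℝ (f (mix t p.1 p.2)) p.1) (by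
          rw [hrot.map_eq]
          exact hF.aestronglyMeasurable)
      rw [hrot.map_eq] at h
      rw [h]
      refine integral_congr_ae (Eventually.of_forall fun p => ?_)
      show inner ℝ (f (mix t (t • p.1 + (-s) • p.2) (-(-s) • p.1 + t • p.2))) (t • p.1 + (-s) • p.2) = _
      have : mix t (t • p.1 + (-s) • p.2) (-(-s) • p.1 + t • p.2) = p.1 := by
        rw [mix, ← hs]
        have h1 : t • (t • p.1 + (-s) • p.2) + s • (-(-s) • p.1 + t • p.2) = (t ^ 2 + s ^ 2) • p.1 := by
          module
        rw [h1, hs2]
        simp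
      rw [this]
    rw [hstep1, hstep2]
    have hA : Integrable (fun p : E n × E n => t * inner ℝ (f p.1) p.1) ((gm n).prod (gm n)) :=
      (hin.comp_fst (gm n)).const_mul t
    have hsnd : Integrable (fun p : E n × E n => p.2) ((gm n).prod (gm n)) := hid.comp_snd (gm n)
    have hB0 : Integrable (fun p : E n × E n => inner ℝ (f p.1) p.2) ((gm n).prod (gm n)) := by
      have h2 : Integrable (fun p : E n × E n => 2 * ‖p.2‖) ((gm n).prod (gm n)) := hsnd.norm.const_mul 2
      refine h2.mono' ((hf.1.comp measurable_fst).inner measurable_snd).aestronglyMeasurable ?_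
      refine Eventually.of_forall fun p => ?_
      refine (norm_inner_le_norm _ _).trans ?_
      exact mul_le_mul_of_nonneg_right (hf.2 _) (norm_nonneg _)
    have hsplit : (fun p : E n × E n => inner ℝ (f p.1) (t • p.1 + (-s) • p.2)) =
        fun p => t * inner ℝ (f p.1) p.1 + (-s) * inner ℝ (f p.1) p.2 := by
      funext p
      rw [inner_add_right, inner_smul_right, inner_smul_right]
    rw [hsplit, integral_add hA (hB0.const_mul (-s)), integral_const_mul, integral_const_mul, integral_prod _ hB0,
      integral_prod _ (hin.comp_fst (gm n))]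
    have hb : (∫ x : E n, ∫ y : E n, inner ℝ (f x) y ∂(gm n) ∂(gm n)) = 0 := by
      have : (fun x : E n => ∫ y : E n, inner ℝ (f x) y ∂(gm n)) = fun _ => (0 : ℝ) := by
        funext x
        rw [integral_inner hid (f x), hz]
        simp
      rw [this]
      simp
    rw [hb]
    simp

end Pool.Agent.CX
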